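import Mathlib
import Pool.Agent.Q241.WeakUnitTable

/-!
# A total weak unit interval graph with `8` vertices and `14` edges
-/

namespace Pool.Agent.Results.MP_f51a03_co.EightVertexGraph

open Pool.Agent.Q241.WeakUnit

/-- `G` has a weak unit interval representation with respect to the edge-labelling `l`
(`true` is near, `false` is far). -/
def HasRep {V : Type} (G : SimpleGraph V) (l : G.edgeSet → Bool) : Prop :=
  ∃ (I : V → ℝ) (t : ℝ), 0 < t ∧
    ∀ (u v : V) (h : G.Adj u v), |I u - I v| ≤ t ↔ l ⟨s(u, v), h⟩ = true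

/-- `G` is a total weak unit interval graph. -/
def IsTotal {V : Type} (G : SimpleGraph V) : Prop := ∀ l : G.edgeSet → Bool, HasRep G l

/-- The fourteen edges. -/
def el : Fin 14 → Fin 8 × Fin 8 :=
  ![(0, 1), (0, 2), (0, 6), (0, 7), (1, 3), (1, 5), (1, 7), (2, 3), (2, 4), (2, 6), (3, 4), (3, 5),
    (4, 7), (5, 6)]

/-- The fourteen edges as unordered pairs. -/
def se (i : Fin 14) : Sym2 (Fin 8) := s((el i).1, (el i).2)

/-- The graph. -/
def G8 : SimpleGraph (Fin 8) where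
  Adj u v := ∃ i : Fin 14, s(u, v) = se i
  symm := ⟨by
    rintro u v ⟨i, hi⟩
    exact ⟨i, by rw [← hi]; exact Sym2.eq_swap⟩⟩
  loopless := ⟨by
    rintro u ⟨i, hi⟩
    revert u i
    decide⟩

theorem edge_mem (i : Fin 14) : se i ∈ G8.edgeSet := ⟨i, rfl⟩

theorem edgeSet_eq : G8.edgeSet = ((Finset.univ.image se : Finset (Sym2 (Fin 8))) : Set _) := by
  ext e
  induction e using Sym2.ind with
  | _ u v =>
    simp only [Finset.coe_image, Finset.coe_univ, Set.image_univ, Set.mem_range]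
    constructor
    · rintro ⟨i, hi⟩
      exact ⟨i, hi.symm⟩
    · rintro ⟨i, hi⟩
      exact ⟨i, hi.symm⟩

theorem edge_count : G8.edgeSet.ncard = 14 := by
  rw [edgeSet_eq, Set.ncard_coe_finset]
  decide

theorem leaf_chk {w m : ℕ} (h : leaf w m = true) (i : Fin 14) :
    chk w m i.1 (el i).1.1 (el i).2.1 = true := by
  simp only [leaf, Bool.and_eq_true] at h
  obtain ⟨⟨⟨⟨⟨⟨⟨⟨⟨⟨⟨⟨⟨h0, h1⟩, h2⟩, h3⟩, h4⟩, h5⟩, h6⟩, h7⟩, h8⟩, h9⟩, h10⟩, h11⟩, h12⟩, h13⟩ := h
  fin_cases i <;> assumption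

theorem near_iff (x y : ℕ) :
    |(x : ℝ) - (y : ℝ)| ≤ 2 ↔ (Nat.ble x (y + 2) && Nat.ble y (x + 2)) = true := by
  rw [Bool.and_eq_true, Nat.ble_eq, Nat.ble_eq, abs_le]
  constructor
  · rintro ⟨h1, h2⟩
    constructor
    · have : (x : ℝ) ≤ ((y + 2 : ℕ) : ℝ) := by push_cast; linarith
      exact_mod_cast this
    · have : (y : ℝ) ≤ ((x + 2 : ℕ) : ℝ) := by push_cast; linarith
      exact_mod_cast this
  · rintro ⟨h1, h2⟩
    have h3 : (x : ℝ) ≤ ((y + 2 : ℕ) : ℝ) := by exact_mod_cast h1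
    have h4 : (y : ℝ) ≤ ((x + 2 : ℕ) : ℝ) := by exact_mod_cast h2
    push_cast at h3 h4
    constructor <;> linarith

theorem G8_total : IsTotal G8 := by
  intro l
  set f : Fin 14 → Bool := fun i => l ⟨se i, edge_mem i⟩ with hf
  obtain ⟨w, hw⟩ := all_leaf (Nat.ofBits f) (Nat.ofBits_lt_two_pow f)
  refine ⟨fun v => (pos w v.1 : ℝ), 2, by norm_num, ?_⟩
  intro u v h
  obtain ⟨i, hi⟩ := h
  have hl : l ⟨s(u, v), ⟨i, hi⟩⟩ = f i := by
    simp only [hf]
    congr 1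
    exact Subtype.ext hi
  have hc := leaf_chk hw i
  have hb : Nat.testBit (Nat.ofBits f) i.1 = f i := Nat.testBit_ofBits_lt f i.1 i.2
  unfold chk at hc
  rw [hb, beq_iff_eq] at hc
  have key : |(pos w (el i).1.1 : ℝ) - (pos w (el i).2.1 : ℝ)| ≤ 2 ↔ f i = true := by
    rw [near_iff, hc]
  rw [hl, ← key]
  have hi' : (u = (el i).1 ∧ v = (el i).2) ∨ (u = (el i).2 ∧ v = (el i).1) := by
    rw [se, Sym2.eq_iff] at hi
    exact hi
  rcases hi' with ⟨rfl, rfl⟩ | ⟨rfl, rfl⟩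
  · exact Iff.rfl
  · rw [abs_sub_comm]

/-- The bound `|E| ≤ 2|V| - 3` fails: there is a total weak unit interval graph with `8` vertices
and `14 = 2 · 8 - 2` edges. -/
theorem result : ∃ (V : Type) (_ : Fintype V) (G : SimpleGraph V), IsTotal G ∧
    Fintype.card V = 8 ∧ G.edgeSet.ncard = 14 :=
  ⟨Fin 8, inferInstance, G8, G8_total, Fintype.card_fin 8, edge_count⟩

end Pool.Agent.Results.MP_f51a03_co.EightVertexGraph
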